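import Pool.Agent.BEC.Stmts

/-!
# Squad BEC, row GRE (helper59): Green's identity for a test function
-/

set_option autoImplicit false

namespace Pool.Agent.BEC.H59

open Set Filter Topology MeasureTheory InnerProductSpace Laplacian
open scoped InnerProductSpace ENNReal
open Pool.Agent.BE01F Pool.Agent.BEC

namespace GRE

variable {d : ℕ}

theorem cont {V K : Set (E d)} (hK : IsCompact K) (hKV : K ⊆ V) (h : E d → ℝ)
    (hc : ∀ x ∈ V, ContinuousAt h x) (hz : ∀ x, x ∉ K → h x = 0) : Integrable h := by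
  have h1 : Continuous h := by
    rw [continuous_iff_continuousAt]
    intro x
    by_cases hx : x ∈ V
    · exact hc x hx
    · have hxK : x ∉ K := fun h2 => hx (hKV h2)
      have h3 : h =ᶠ[𝓝 x] fun _ => (0 : ℝ) := by
        filter_upwards [hK.isClosed.isOpen_compl.mem_nhds hxK] with y hy
        exact hz y hy
      exact (continuousAt_const.congr h3.symm)
  exact h1.integrable_of_hasCompactSupport (HasCompactSupport.intro hK hz)

theorem fd2 (f : E d → ℝ) (x v w : E d) (h : ContDiffAt ℝ 2 f x) :
    fderiv ℝ (fun y => fderiv ℝ f y v) x w = fderiv ℝ (fderiv ℝ f) x w v := by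
  have h1 : DifferentiableAt ℝ (fderiv ℝ f) x :=
    (h.fderiv_right (m := 1) (by norm_num)).differentiableAt (by norm_num)
  rw [fderiv_clm_apply h1 (differentiableAt_const v)]
  simp

end GRE

open GRE in
theorem gre : GreStmt := by
  intro d V f ψ hV hf hψ hcs hsub
  classical
  set K : Set (E d) := tsupport ψ with hKdef
  have hK : IsCompact K := hcs
  have hfat : ∀ x ∈ V, ContDiffAt ℝ 2 f x := fun x hx => hf.contDiffAt (hV.mem_nhds hx)
  have hψ0 : ∀ x, x ∉ K → ψ x = 0 := fun x hx => image_eq_zero_of_notMem_tsupport hx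
  have hdψ0 : ∀ x, x ∉ K → fderiv ℝ ψ x = 0 := fun x hx =>
    image_eq_zero_of_notMem_tsupport (fun h => hx (tsupport_fderiv_subset ℝ h))
  have hψc : Continuous ψ := hψ.continuous
  have hdψc : Continuous (fderiv ℝ ψ) := hψ.continuous_fderiv (by simp)
  let b := EuclideanSpace.basisFun (Fin d) ℝ
  -- pointwise formulas
  have hD2 : ∀ x, (Δ f) x * ψ x =
      ∑ i, ψ x * fderiv ℝ (fun y => fderiv ℝ f y (b i)) x (b i) := by
    intro x
    by_cases hx : x ∈ K
    · rw [laplacian_eq_iteratedFDeriv_orthonormalBasis f b, ← Finset.mul_sum, mul_comm]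
      refine congrArg (fun s => ψ x * s) ?_
      refine Finset.sum_congr rfl fun i _ => ?_
      rw [fd2 f x (b i) (b i) (hfat x (hsub hx)), iteratedFDeriv_two_apply]
      rfl
    · simp [hψ0 x hx]
  have hD1 : ∀ x, ⟪gradient f x, gradient ψ x⟫_ℝ =
      ∑ i, fderiv ℝ ψ x (b i) * fderiv ℝ f x (b i) := by
    intro x
    rw [← b.sum_inner_mul_inner]
    refine Finset.sum_congr rfl fun i _ => ?_
    rw [real_inner_comm (gradient ψ x) (b i)]
    unfold gradient
    rw [toDual_symm_apply, toDual_symm_apply, mul_comm]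
  -- integrability
  have hI2 : ∀ i, Integrable (fun x => ψ x * fderiv ℝ (fun y => fderiv ℝ f y (b i)) x (b i)) := by
    intro i
    refine cont hK hsub _ (fun x hx => ?_) (fun x hx => by simp [hψ0 x hx])
    have h1 : ContDiffAt ℝ 1 (fun y => fderiv ℝ f y (b i)) x :=
      ((hfat x hx).fderiv_right (m := 1) (by norm_num)).clm_apply contDiffAt_const
    have h2 : ContinuousAt (fderiv ℝ (fun y => fderiv ℝ f y (b i))) x :=
      (h1.fderiv_right (m := 0) (by norm_num)).continuousAt
    exact hψc.continuousAt.mul (h2.clm_apply continuousAt_const)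
  have hcf : ∀ i, ∀ x ∈ V, ContinuousAt (fun y => fderiv ℝ f y (b i)) x := by
    intro i x hx
    exact (((hfat x hx).fderiv_right (m := 1) (by norm_num)).continuousAt).clm_apply
      continuousAt_const
  have hI1 : ∀ i, Integrable (fun x => fderiv ℝ ψ x (b i) * fderiv ℝ f x (b i)) := by
    intro i
    refine cont hK hsub _ (fun x hx => ?_) (fun x hx => by simp [hdψ0 x hx])
    exact (hdψc.continuousAt.clm_apply continuousAt_const).mul (hcf i x hx)
  have hI0 : ∀ i, Integrable (fun x => ψ x * fderiv ℝ f x (b i)) := by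
    intro i
    refine cont hK hsub _ (fun x hx => ?_) (fun x hx => by simp [hψ0 x hx])
    exact hψc.continuousAt.mul (hcf i x hx)
  -- integration by parts
  have hIBP : ∀ i, ∫ x, ψ x * fderiv ℝ (fun y => fderiv ℝ f y (b i)) x (b i) =
      - ∫ x, fderiv ℝ ψ x (b i) * fderiv ℝ f x (b i) := by
    intro i
    refine integral_mul_fderiv_eq_neg_fderiv_mul_of_integrable (hI1 i) (hI2 i) (hI0 i) ?_ ?_
    · intro x _
      exact (hψ.differentiable (by simp)) x
    · intro x hx
      exact ((((hfat x (hsub hx)).fderiv_right (m := 1) (by norm_num)).clm_apply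
        contDiffAt_const).differentiableAt (by norm_num))
  have hA : Integrable (fun x => (Δ f) x * ψ x) := by
    have h3 : Integrable (fun x => ∑ i, ψ x *
        fderiv ℝ (fun y => fderiv ℝ f y (b i)) x (b i)) :=
      integrable_finsetSum _ fun i _ => hI2 i
    exact h3.congr (Eventually.of_forall fun x => (hD2 x).symm)
  have hB : Integrable (fun x => ⟪gradient f x, gradient ψ x⟫_ℝ) := by
    have h3 : Integrable (fun x => ∑ i, fderiv ℝ ψ x (b i) * fderiv ℝ f x (b i)) :=
      integrable_finsetSum _ fun i _ => hI1 i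
    exact h3.congr (Eventually.of_forall fun x => (hD1 x).symm)
  refine ⟨hA, hB, ?_⟩
  rw [integral_add hA hB]
  have e1 : ∫ x, (Δ f) x * ψ x = ∑ i, ∫ x, ψ x *
      fderiv ℝ (fun y => fderiv ℝ f y (b i)) x (b i) := by
    rw [← integral_finsetSum _ fun i _ => hI2 i]
    exact integral_congr_ae (Eventually.of_forall hD2)
  have e2 : ∫ x, ⟪gradient f x, gradient ψ x⟫_ℝ = ∑ i, ∫ x,
      fderiv ℝ ψ x (b i) * fderiv ℝ f x (b i) := by
    rw [← integral_finsetSum _ fun i _ => hI1 i]
    exact integral_congr_ae (Eventually.of_forall hD1)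
  rw [e1, e2, ← Finset.sum_add_distrib]
  refine Finset.sum_eq_zero fun i _ => ?_
  rw [hIBP i]
  ring

end Pool.Agent.BEC.H59
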